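import Mathlib

/-!
Newtonian spaces, capacities, thinness and the p-fine topology on a metric measure space,
following the conventions of A. Bjorn and J. Bjorn, Nonlinear potential theory on metric spaces.
-/

open MeasureTheory Metric Set
open scoped ENNReal NNReal

namespace Pool.Agent.MP_024e69_an

universe u

/-- A nonconstant compact rectifiable curve, parametrised by arc length on `[a, b]`. -/
structure Curve (X : Type u) [MetricSpace X] : Type u where
  a : ℝ
  b : ℝ
  lt : a < b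
  toFun : ℝ → X
  unitSpeed : HasUnitSpeedOn toFun (Icc a b)

variable {X : Type u} [MetricSpace X] [MeasurableSpace X]

/-- The line integral of `g` along a curve with respect to arc length. -/
noncomputable def lineIntegral (γ : Curve X) (g : X → ℝ≥0∞) : ℝ≥0∞ :=
  ∫⁻ t in Icc γ.a γ.b, g (γ.toFun t)

/-- The `p`-modulus of a family of curves. -/
noncomputable def modulus (μ : Measure X) (p : ℝ) (Γ : Set (Curve X)) : ℝ≥0∞ :=
  ⨅ (ρ : X → ℝ≥0∞) (_ : Measurable ρ) (_ : ∀ γ ∈ Γ, 1 ≤ lineIntegral γ ρ), ∫⁻ x, ρ x ^ p ∂μ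

/-- `|s - t|` for extended reals, equal to `∞` as soon as one of `s`, `t` is infinite. -/
noncomputable def eAbsSub (s t : EReal) : ℝ≥0∞ :=
  if s = ⊤ ∨ s = ⊥ ∨ t = ⊤ ∨ t = ⊥ then ⊤ else ENNReal.ofReal |s.toReal - t.toReal|

/-- The upper gradient inequality for the pair `(f, g)` along the curve `γ`. -/
def UpperGradientIneq (f : X → EReal) (g : X → ℝ≥0∞) (γ : Curve X) : Prop :=
  eAbsSub (f (γ.toFun γ.a)) (f (γ.toFun γ.b)) ≤ lineIntegral γ g

/-- `g` is an upper gradient of `f`: a Borel function satisfying the inequality on all curves. -/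
def IsUpperGradient (f : X → EReal) (g : X → ℝ≥0∞) : Prop :=
  Measurable g ∧ ∀ γ : Curve X, UpperGradientIneq f g γ

/-- `g` is a `p`-weak upper gradient of `f`: the inequality holds on `p`-almost every curve. -/
def IsWeakUpperGradient (μ : Measure X) (p : ℝ) (f : X → EReal) (g : X → ℝ≥0∞) : Prop :=
  Measurable g ∧ modulus μ p {γ : Curve X | ¬ UpperGradientIneq f g γ} = 0

/-- The `p`-energy: the infimum of `∫ g ^ p` over the `p`-weak upper gradients `g` of `f`. -/
noncomputable def energy (μ : Measure X) (p : ℝ) (f : X → EReal) : ℝ≥0∞ :=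
  ⨅ (g : X → ℝ≥0∞) (_ : IsWeakUpperGradient μ p f g), ∫⁻ x, g x ^ p ∂μ

/-- The `p`-th power of the Newtonian norm. -/
noncomputable def newtonNormPow (μ : Measure X) (p : ℝ) (f : X → EReal) : ℝ≥0∞ :=
  ∫⁻ x, (f x).abs ^ p ∂μ + energy μ p f

/-- Membership in the Newtonian space `N^{1,p}(X)`. -/
def MemNewton (μ : Measure X) (p : ℝ) (f : X → EReal) : Prop :=
  AEMeasurable f μ ∧ newtonNormPow μ p f < ⊤

/-- The Sobolev capacity `C_p(E)`. -/
noncomputable def sobolevCap (μ : Measure X) (p : ℝ) (E : Set X) : ℝ≥0∞ :=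
  ⨅ (f : X → EReal) (_ : MemNewton μ p f) (_ : ∀ x ∈ E, 1 ≤ f x), newtonNormPow μ p f

/-- The variational capacity `cap_p(A, B)`. -/
noncomputable def varCap (μ : Measure X) (p : ℝ) (A B : Set X) : ℝ≥0∞ :=
  ⨅ (f : X → EReal) (_ : MemNewton μ p f) (_ : ∀ x ∈ A, 1 ≤ f x) (_ : ∀ x ∉ B, f x = 0),
    energy μ p f

/-- The Wiener integrand (without the factor `1 / r`); it is `1` when the denominator vanishes. -/
noncomputable def wienerTerm (μ : Measure X) (p : ℝ) (E : Set X) (x : X) (r : ℝ) : ℝ≥0∞ :=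
  if varCap μ p (ball x r) (ball x (2 * r)) = 0 then 1
  else (varCap μ p (E ∩ ball x r) (ball x (2 * r)) /
    varCap μ p (ball x r) (ball x (2 * r))) ^ (1 / (p - 1))

/-- `E` is `p`-thin at `x`. -/
def IsThin (μ : Measure X) (p : ℝ) (E : Set X) (x : X) : Prop :=
  ∫⁻ r in Ioo (0 : ℝ) 1, wienerTerm μ p E x r / ENNReal.ofReal r < ⊤

/-- `V` is `p`-finely open. -/
def IsFinelyOpen (μ : Measure X) (p : ℝ) (V : Set X) : Prop :=
  ∀ x ∈ V, IsThin μ p Vᶜ x

/-- The `p`-fine topology. -/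
@[reducible] def fineTopology (μ : Measure X) (p : ℝ) : TopologicalSpace X :=
  TopologicalSpace.generateFrom {V : Set X | IsFinelyOpen μ p V}

/-- A `p`-fine domain: a nonempty `p`-finely open set, connected in the `p`-fine topology. -/
def IsFineDomain (μ : Measure X) (p : ℝ) (U : Set X) : Prop :=
  IsFinelyOpen μ p U ∧ @IsConnected X (fineTopology μ p) U

/-- The measure is positive and finite on balls, and doubling. -/
def IsDoubling (μ : Measure X) : Prop :=
  (∀ (x : X) (r : ℝ), 0 < r → 0 < μ (ball x r) ∧ μ (ball x r) < ⊤) ∧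
  ∃ C : ℝ≥0, ∀ (x : X) (r : ℝ), 0 < r → μ (ball x (2 * r)) ≤ C * μ (ball x r)

/-- The `p`-Poincare inequality. -/
def SupportsPoincare (μ : Measure X) (p : ℝ) : Prop :=
  ∃ (C : ℝ≥0) (lam : ℝ), 1 ≤ lam ∧ ∀ (x : X) (r : ℝ), 0 < r →
    ∀ (f : X → ℝ) (g : X → ℝ≥0∞), Integrable f μ → IsUpperGradient (fun y => (f y : EReal)) g →
      ⨍⁻ y in ball x r, ‖f y - ⨍ z in ball x r, f z ∂μ‖ₑ ∂μ ≤
        C * ENNReal.ofReal r * (⨍⁻ y in ball x (lam * r), g y ^ p ∂μ) ^ (1 / p)

end Pool.Agent.MP_024e69_an
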